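import Pool.Agent.L0h94.RZ.Bas
import Pool.Agent.W214.RK.Half

/-!
# Project RZ: the 2-descent
-/

set_option autoImplicit false

namespace Pool.Agent.L0h47.RZ

open Finset Pool.Agent.W262.RK Pool.Agent.L0h94.RZ

/-- a nonzero rational number has a squarefree representative -/
lemma exists_rp (x : ℚ) (hx : x ≠ 0) : ∃ e : ℤ, Rp x e := by
  obtain ⟨a, k, hak, ha⟩ := Nat.sq_mul_squarefree (x.num.natAbs * x.den)
  have hn : x.num ≠ 0 := Rat.num_ne_zero.2 hx
  have hd : (x.den : ℚ) ≠ 0 := by exact_mod_cast x.den_nz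
  refine ⟨x.num.sign * a, ?_, (k : ℚ) * a / x.den, ?_⟩
  · rw [← Int.squarefree_natAbs, Int.natAbs_mul, Int.natAbs_sign_of_ne_zero hn, one_mul,
      Int.natAbs_natCast]
    exact ha
  · have h1 : x * x.den = x.num := Rat.mul_den_eq_num x
    have h2 : (x.num : ℚ) * (x.num.sign : ℚ) = (x.num.natAbs : ℚ) := by
      have : x.num * x.num.sign = (x.num.natAbs : ℤ) := by
        rw [Int.mul_sign_self]
      rw [← Int.cast_mul, this, Int.cast_natCast]
    have h3 : ((k : ℚ)) ^ 2 * a = (x.num.natAbs : ℚ) * x.den := by exact_mod_cast hak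
    have h4 : x * ((x.num.sign * (a : ℤ) : ℤ) : ℚ) * ((x.den : ℚ) * x.den) =
        ((k : ℚ) * a) * (k * a) := by
      push_cast
      calc x * ((x.num.sign : ℚ) * (a : ℚ)) * ((x.den : ℚ) * x.den)
          = (x * x.den) * (x.num.sign : ℚ) * x.den * a := by ring
        _ = (x.num.natAbs : ℚ) * x.den * a := by rw [h1, h2]
        _ = _ := by rw [← h3]; ring
    rw [div_mul_div_comm, ← h4, mul_div_assoc, div_self (mul_ne_zero hd hd), mul_one]

/-- two numbers with the same representative -/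
lemma rp_mul {x x' : ℚ} {e : ℤ} (h : Rp x e) (h' : Rp x' e) : IsSquare (x * x') := by
  obtain ⟨hs, r, hr⟩ := h
  obtain ⟨-, r', hr'⟩ := h'
  have he0 : (e : ℚ) ≠ 0 := by exact_mod_cast hs.ne_zero
  refine ⟨r * r' / e, ?_⟩
  have h1 : x * x' * (e * e : ℚ) = (r * r') * (r * r') := by
    calc x * x' * (e * e : ℚ) = (x * e) * (x' * e) := by ring
      _ = _ := by rw [hr, hr']; ring
  rw [div_mul_div_comm, ← h1, mul_div_assoc, div_self (mul_ne_zero he0 he0), mul_one]

lemma kerE_finite (S : Finset ℕ) (e : ℕ → ℕ → ZMod 2) : Module.Finite (ZMod 2) (KerE S e) := by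
  let f : KerE S e →ₗ[ZMod 2] (S → ZMod 2) :=
    { toFun := fun v p => v.1 p
      map_add' := fun v v' => rfl
      map_smul' := fun c v => rfl }
  refine Module.Finite.of_injective f ?_
  intro v v' h
  apply Subtype.ext
  funext p
  by_cases hp : p ∈ S
  · exact congrFun h ⟨p, hp⟩
  · rw [v.2.1 p hp, v'.2.1 p hp]

lemma kerE_card {S : Finset ℕ} {e : ℕ → ℕ → ZMod 2} (f : Fin 8 → KerE S e)
    (hf : Function.Injective f) : 3 ≤ Module.finrank (ZMod 2) (KerE S e) := by
  haveI := kerE_finite S e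
  haveI : Finite (KerE S e) := Module.finite_of_finite (ZMod 2)
  have h1 : Nat.card (Fin 8) ≤ Nat.card (KerE S e) := Nat.card_le_card_of_injective f hf
  rw [Nat.card_fin, Module.natCard_eq_pow_finrank (K := ZMod 2), Nat.card_zmod] at h1
  have h2 : 2 ^ 3 ≤ 2 ^ Module.finrank (ZMod 2) (KerE S e) := by simpa using h1
  exact (Nat.pow_le_pow_iff_right (by norm_num)).1 h2

theorem desc (l2 : S_LOC2) (lp : S_LOCP) (ker : S_KER) (grp : S_GRP) : S_DESC := by
  classical
  intro o u b w g hrk
  have hm0 : mo o u w ≠ 0 := by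
    have h1 := g.u0
    have h2 := g.w0
    cases o
    · simp [mo, h2]
    · simp [mo, h1]
  have hb0 : (b : ℤ) ≠ 0 := by exact_mod_cast g.b0
  have hmb : mo o u w ≠ (b : ℤ) := by
    have h1 := g.hb
    have h2 := g.u0
    have h3 := g.w0
    cases o
    · simp only [mo]
      intro h
      simp only [Bool.false_eq_true, if_false] at h
      omega
    · simp only [mo]
      intro h
      simp only [if_true] at h
      omega
  obtain ⟨hfg, hhalf, hns, -⟩ := Pool.Agent.W214.RK.half (mo o u w) b hm0 hb0 hmb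
  set m : ℤ := mo o u w with hm
  have q0 : (m : ℚ) ≠ 0 := by exact_mod_cast hm0
  have qb : (((b : ℕ) : ℤ) : ℚ) ≠ 0 := by exact_mod_cast hb0
  have qmb : (m : ℚ) ≠ (((b : ℕ) : ℤ) : ℚ) := by exact_mod_cast hmb
  have c0 : (EAB m b).toAffine.Nonsingular 0 0 := (hns 0 0).2 (by ring)
  have c1 : (EAB m b).toAffine.Nonsingular (m : ℚ) 0 := (hns _ 0).2 (by ring)
  have c2 : (EAB m b).toAffine.Nonsingular (((b : ℕ) : ℤ) : ℚ) 0 := (hns _ 0).2 (by ring)
  have dbl : ∀ (x : ℚ) (h : (EAB m b).toAffine.Nonsingular x 0),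
      (WeierstrassCurve.Affine.Point.some x 0 h : (EAB m b).toAffine.Point) +
        WeierstrassCurve.Affine.Point.some x 0 h = 0 := by
    intro x h
    apply WeierstrassCurve.Affine.Point.add_self_of_Y_eq
    simp [WeierstrassCurve.Affine.negY, EAB]
  have hT : ∃ T : Finset (EAB m b).toAffine.Point, T.card = 4 ∧ ∀ t ∈ T, t + t = 0 := by
    refine ⟨{0, WeierstrassCurve.Affine.Point.some 0 0 c0,
      WeierstrassCurve.Affine.Point.some (m : ℚ) 0 c1,
      WeierstrassCurve.Affine.Point.some (((b : ℕ) : ℤ) : ℚ) 0 c2}, ?_, ?_⟩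
    · rw [card_insert_of_notMem, card_insert_of_notMem, card_pair]
      · intro h
        rw [WeierstrassCurve.Affine.Point.some.injEq] at h
        exact qmb h.1
      · intro h
        rw [mem_insert, mem_singleton] at h
        rcases h with h | h
        · rw [WeierstrassCurve.Affine.Point.some.injEq] at h
          exact q0 h.1.symm
        · rw [WeierstrassCurve.Affine.Point.some.injEq] at h
          exact qb h.1.symm
      · intro h
        rw [mem_insert, mem_insert, mem_singleton] at h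
        rcases h with h | h | h <;>
          exact WeierstrassCurve.Affine.Point.some_ne_zero _ h.symm
    · intro t ht
      rw [mem_insert, mem_insert, mem_insert, mem_singleton] at ht
      rcases ht with rfl | rfl | rfl | rfl
      · exact add_zero 0
      · exact dbl _ _
      · exact dbl _ _
      · exact dbl _ _
  set T0s : Set (EAB m b).toAffine.Point :=
    {P | P = 0 ∨ ∃ (x : ℚ) (h : (EAB m b).toAffine.Nonsingular x 0),
      P = WeierstrassCurve.Affine.Point.some x 0 h} with hT0s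
  have hT0fin : T0s.Finite := by
    have hsub : T0s ⊆ insert 0 ((fun x : ℚ =>
        if h : (EAB m b).toAffine.Nonsingular x 0 then
          WeierstrassCurve.Affine.Point.some x 0 h else 0) ''
            ({0, (m : ℚ), (((b : ℕ) : ℤ) : ℚ)} : Set ℚ)) := by
      rintro P (rfl | ⟨x, h, rfl⟩)
      · exact Set.mem_insert _ _
      · right
        refine ⟨x, ?_, ?_⟩
        · have h5 := (hns x 0).mp h
          have h6 : x * (x - m) * (x - (((b : ℕ) : ℤ) : ℚ)) = 0 := by rw [← h5]; norm_num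
          rcases mul_eq_zero.mp h6 with h7 | h7
          · rcases mul_eq_zero.mp h7 with h8 | h8
            · left; exact h8
            · right; left; exact sub_eq_zero.mp h8
          · right; right; exact sub_eq_zero.mp h7
        · show (if h : (EAB m b).toAffine.Nonsingular x 0 then
            WeierstrassCurve.Affine.Point.some x 0 h else 0) = _
          rw [dif_pos h]
    exact ((Set.toFinite _).image _ |>.insert _).subset hsub
  obtain ⟨pt, hF, hinj⟩ := grp (EAB m b).toAffine.Point hfg hrk hT T0s hT0fin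
  have hex : ∀ i, ∃ (x y : ℚ) (h : (EAB m b).toAffine.Nonsingular x y), y ≠ 0 ∧
      pt i = WeierstrassCurve.Affine.Point.some x y h := by
    intro i
    have h1 := hF i
    rcases h2 : pt i with _ | ⟨x, y, h⟩
    · exact absurd (Or.inl h2) h1
    · refine ⟨x, y, h, ?_, rfl⟩
      rintro rfl
      exact h1 (Or.inr ⟨x, h, h2⟩)
  choose x y h hy hpt using hex
  have heq : ∀ i, y i ^ 2 = x i * (x i - m) * (x i - b) := by
    intro i
    have := (hns (x i) (y i)).1 (h i)
    push_cast at this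
    exact this
  have hne : ∀ i, x i * (x i - m) * (x i - b) ≠ 0 := fun i => by
    rw [← heq i]; exact pow_ne_zero _ (hy i)
  have n1 : ∀ i, x i ≠ 0 := fun i h => hne i (by rw [h]; ring)
  have n2 : ∀ i, x i - m ≠ 0 := fun i h => hne i (by rw [h]; ring)
  have n3 : ∀ i, x i - b ≠ 0 := fun i h => hne i (by rw [h]; ring)
  choose e1 r1 using fun i => exists_rp (x i) (n1 i)
  choose e2 r2 using fun i => exists_rp (x i - m) (n2 i)
  choose e3 r3 using fun i => exists_rp (x i - b) (n3 i)
  have la : ∀ i, LA o u b w (e1 i) (e2 i) (e3 i) := by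
    intro i
    obtain ⟨a1, a2, a3, a4, a5, a6⟩ := l2 o u b w g (x i) (y i) (e1 i) (e2 i) (e3 i) (hy i) (heq i)
      (r1 i) (r2 i) (r3 i)
    exact ⟨(r1 i).1, (r2 i).1, (r3 i).1, a1, a2, a3, a4, a5, a6,
      lp o u b w g (x i) (y i) (e1 i) (e2 i) (e3 i) (hy i) (heq i) (r1 i) (r2 i) (r3 i)⟩
  obtain ⟨k1, k2⟩ := ker o u b w g
  refine kerE_card (fun i => ⟨vec u b w (e1 i) (e2 i), k1 _ _ _ (la i)⟩) ?_
  intro i j hij
  have hv : vec u b w (e1 i) (e2 i) = vec u b w (e1 j) (e2 j) := congrArg Subtype.val hij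
  obtain ⟨s1, s2, s3⟩ := k2 _ _ _ _ _ _ (la i) (la j) hv
  have t1 : IsSquare (x i * x j) := rp_mul (r1 i) (s1 ▸ r1 j)
  have t2 : IsSquare ((x i - m) * (x j - m)) := rp_mul (r2 i) (s2 ▸ r2 j)
  have t3 : IsSquare ((x i - b) * (x j - b)) := rp_mul (r3 i) (s3 ▸ r3 j)
  apply hinj i j
  obtain ⟨Q, hQ⟩ := hhalf (x i) (y i) (x j) (y j) (h i) (h j) (hy i) (hy j) t1 t2
    (by push_cast; exact t3)
  exact ⟨Q, by rw [hpt i, hpt j]; exact hQ⟩

end Pool.Agent.L0h47.RZ
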