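import Pool.Agent.L0h94.RZ.Bas
import Pool.Agent.W262.RK.Stm
import Pool.Agent.W22.RK.Loc
import Pool.Agent.W599.RK.Desc0

/-!
# Project RZ: the local conditions at the odd primes
-/

set_option autoImplicit false

namespace Pool.Agent.L0h47.RZ

open Finset Pool.Agent.W262.RK Pool.Agent.L0h94.RZ

lemma val_sqfree_int (e : ℤ) (p : ℕ) [Fact p.Prime] (he : Squarefree e) :
    padicValRat p (e : ℚ) = if (p : ℤ) ∣ e then 1 else 0 := by
  have h1 : Squarefree e.natAbs := Int.squarefree_natAbs.2 he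
  have h2 := Pool.Agent.W599.RK.val_sqfree e.natAbs p h1
  have h3 : padicValRat p (e : ℚ) = padicValRat p ((e.natAbs : ℕ) : ℚ) := by
    rcases Int.natAbs_eq e with h | h
    · conv_lhs => rw [h]
      rw [Int.cast_natCast]
    · conv_lhs => rw [h]
      rw [Int.cast_neg, Int.cast_natCast, padicValRat.neg]
  rw [h3, h2]
  by_cases h : p ∣ e.natAbs
  · rw [if_pos h, if_pos (Int.natCast_dvd.2 h)]
  · rw [if_neg h, if_neg (fun h' => h (Int.natCast_dvd.1 h'))]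

lemma rp_dvd {x : ℚ} {e : ℤ} (h : Rp x e) (hx : x ≠ 0) (p : ℕ) [Fact p.Prime] :
    (p : ℤ) ∣ e ↔ ¬ Even (padicValRat p x) := by
  obtain ⟨hs, r, hr⟩ := h
  have he0 : (e : ℚ) ≠ 0 := by exact_mod_cast hs.ne_zero
  have hr0 : r ≠ 0 := by
    rintro rfl
    exact mul_ne_zero hx he0 (by rw [hr]; ring)
  have h1 : padicValRat p x + padicValRat p (e : ℚ) = padicValRat p r + padicValRat p r := by
    rw [← padicValRat.mul hx he0, hr, padicValRat.mul hr0 hr0]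
  rw [val_sqfree_int e p hs] at h1
  by_cases h : (p : ℤ) ∣ e
  · rw [if_pos h] at h1
    refine ⟨fun _ h2 => ?_, fun _ => h⟩
    obtain ⟨k, hk⟩ := h2
    omega
  · rw [if_neg h] at h1
    refine ⟨fun h' => absurd h' h, fun h2 => absurd ?_ h2⟩
    exact ⟨padicValRat p r, by omega⟩

lemma rp_nr {x : ℚ} {e c : ℤ} (h : Rp x e) (hx : x ≠ 0) (p : ℕ) [Fact p.Prime]
    (hc : ¬ (p : ℤ) ∣ c) (he : ¬ (p : ℤ) ∣ e) (hsq : IsSquare (((c : ℚ) * x : ℚ) : ℚ_[p])) :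
    nr p e = nr p c := by
  obtain ⟨hs, r, hr⟩ := h
  have hp : p.Prime := Fact.out
  have hce : ¬ (p : ℤ) ∣ c * e := fun h => ((Nat.prime_iff_prime_int.1 hp).dvd_or_dvd h).elim hc he
  have h1 : IsSquare (((c * e : ℤ) : ℚ) : ℚ_[p]) := by
    obtain ⟨s, hs'⟩ := hsq
    have hx' : ((x : ℚ) : ℚ_[p]) ≠ 0 := by exact_mod_cast hx
    refine ⟨s * (r : ℚ_[p]) / (x : ℚ_[p]), ?_⟩
    have e1 : ((c : ℚ) : ℚ_[p]) * (x : ℚ_[p]) = s * s := by rw [← hs']; push_cast; ring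
    have e2 : (x : ℚ_[p]) * ((e : ℚ) : ℚ_[p]) = (r : ℚ_[p]) * (r : ℚ_[p]) := by
      have := congrArg (fun t : ℚ => (t : ℚ_[p])) hr
      push_cast at this ⊢
      exact this
    have e3 : (((c * e : ℤ) : ℚ) : ℚ_[p]) = ((c : ℚ) : ℚ_[p]) * ((e : ℚ) : ℚ_[p]) := by
      push_cast; ring
    rw [e3]
    field_simp
    calc _ = (((c : ℚ) : ℚ_[p]) * (x : ℚ_[p])) * ((x : ℚ_[p]) * ((e : ℚ) : ℚ_[p])) := by
          push_cast; ring
      _ = _ := by rw [e1, e2]; push_cast; ring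
  have h2 := Pool.Agent.W599.RK.jac_of_isSquare p (c * e) hce h1
  have h3 : nr p (c * e) = 0 := by
    unfold nr
    rw [h2, if_neg (by norm_num)]
  rw [nr_mul hp hc he] at h3
  have h4 : nr p e = -nr p c := by linear_combination h3
  rw [h4]
  exact ZMod.neg_eq_self_mod_two _

lemma core (p : ℕ) (hp : p.Prime) (hp2 : p ≠ 2) (A B : ℤ) (hA : (p : ℤ) ∣ A)
    (hA2 : ¬ (p : ℤ) ^ 2 ∣ A) (hB : ¬ (p : ℤ) ∣ B) (x x2 x3 y : ℚ) (hy : y ≠ 0)
    (h2 : x2 = x - A) (h3 : x3 = x - B)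
    (h : y ^ 2 = x * x2 * x3) (e1 e2 e3 : ℤ) (r1 : Rp x e1) (r2 : Rp x2 e2)
    (r3 : Rp x3 e3) : ¬ (p : ℤ) ∣ e3 ∧ ((p : ℤ) ∣ e1 ↔ (p : ℤ) ∣ e2) ∧
    nr p e3 = if (p : ℤ) ∣ e1 then nr p (-B) else 0 := by
  subst h2 h3
  haveI : Fact p.Prime := ⟨hp⟩
  obtain ⟨l1, l2, l3, l4⟩ := Pool.Agent.W22.RK.loc p A B hp2 hA hA2 hB x y hy h
  have hne : x * (x - A) * (x - B) ≠ 0 := by rw [← h]; exact pow_ne_zero _ hy
  have n1 : x ≠ 0 := fun h => hne (by rw [h]; ring)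
  have n2 : x - A ≠ 0 := fun h => hne (by rw [h]; ring)
  have n3 : x - B ≠ 0 := fun h => hne (by rw [h]; ring)
  have d1 := rp_dvd r1 n1 p
  have d2 := rp_dvd r2 n2 p
  have d3 := rp_dvd r3 n3 p
  have k3 : ¬ (p : ℤ) ∣ e3 := fun h => d3.1 h l1
  refine ⟨k3, by rw [d1, d2, l2], ?_⟩
  by_cases h1 : (p : ℤ) ∣ e1
  · rw [if_pos h1]
    have hB' : ¬ (p : ℤ) ∣ -B := fun h => hB (Int.dvd_neg.1 h)
    refine rp_nr r3 n3 p hB' k3 ?_
    have := l4 (d1.1 h1)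
    rw [Int.cast_neg]
    exact this
  · rw [if_neg h1]
    have h11 : ¬ (p : ℤ) ∣ 1 := by
      intro h
      have h1' : (p : ℤ) ∣ ((1 : ℕ) : ℤ) := by exact_mod_cast h
      exact hp.one_lt.ne' (Nat.dvd_one.1 (Int.natCast_dvd_natCast.1 h1'))
    rw [rp_nr r3 n3 p h11 k3 ?_, nr_one]
    have h5 : Even (padicValRat p x) := by
      by_contra h6
      exact h1 (d1.2 h6)
    have := l3 h5
    rw [Int.cast_one, one_mul]
    exact this

section gd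

variable {u b w : ℕ} (g : Gd u b w)

include g

lemma mo_compl (o : Bool) : (b : ℤ) - mo o u w = mo (!o) u w := by
  have := g.hb
  cases o
  · simp only [mo]
    subst this
    push_cast
    simp
  · simp only [mo]
    subst this
    push_cast
    simp

lemma dvd_four_mul {p : ℕ} (hp : p.Prime) (hp2 : p ≠ 2) {k : ℕ} (h : (p : ℤ) ∣ 4 * (k : ℤ)) :
    p ∣ k := by
  rcases (Nat.prime_iff_prime_int.1 hp).dvd_or_dvd h with h1 | h1
  · exact absurd h1 (not_dvd_four hp hp2)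
  · exact Int.natCast_dvd_natCast.1 h1

lemma mo_facts (o : Bool) {p : ℕ} (hp : p.Prime) (hp2 : p ≠ 2) (h : (p : ℤ) ∣ mo o u w) :
    ¬ (p : ℤ) ^ 2 ∣ mo o u w ∧ ¬ (p : ℤ) ∣ (b : ℤ) := by
  have sq : ∀ {k : ℕ}, Squarefree k → ¬ p ^ 2 ∣ k := by
    intro k hk h1
    rw [pow_two] at h1
    exact hp.one_lt.ne' (Nat.isUnit_iff.1 (hk p h1))
  cases o
  · have h1 : (p : ℤ) ∣ 4 * (w : ℤ) := by simpa [mo] using h
    have h2 : p ∣ w := dvd_four_mul g hp hp2 h1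
    refine ⟨fun h3 => ?_, fun h3 => ?_⟩
    · have h4 : (p : ℤ) ^ 2 ∣ 4 * (w : ℤ) := by simpa [mo] using h3
      have h5 : p ^ 2 ∣ 4 * w := by exact_mod_cast h4
      have h6 : Nat.Coprime (p ^ 2) 4 := by
        have : Nat.Coprime p 2 := (Nat.coprime_primes hp Nat.prime_two).2 hp2
        exact Nat.Coprime.pow 2 2 this
      exact sq g.sqw (h6.dvd_of_dvd_mul_left h5)
    · have h4 : p ∣ b := Int.natCast_dvd_natCast.1 h3
      exact hp.one_lt.ne' (Nat.dvd_one.1 (g.cbw ▸ Nat.dvd_gcd h4 h2))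
  · have h1 : (p : ℤ) ∣ (u : ℤ) := by simpa [mo] using h
    have h2 : p ∣ u := Int.natCast_dvd_natCast.1 h1
    refine ⟨fun h3 => ?_, fun h3 => ?_⟩
    · have h4 : (p : ℤ) ^ 2 ∣ (u : ℤ) := by simpa [mo] using h3
      have h5 : p ^ 2 ∣ u := by exact_mod_cast h4
      exact sq g.squ h5
    · have h4 : p ∣ b := Int.natCast_dvd_natCast.1 h3
      exact hp.one_lt.ne' (Nat.dvd_one.1 (g.cub ▸ Nat.dvd_gcd h2 h4))

lemma b_facts (o : Bool) {p : ℕ} (hp : p.Prime) (hp2 : p ≠ 2) (h : p ∣ b) :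
    ¬ (p : ℤ) ^ 2 ∣ (b : ℤ) ∧ ¬ (p : ℤ) ∣ mo o u w := by
  refine ⟨fun h3 => ?_, fun h3 => ?_⟩
  · have h5 : p ^ 2 ∣ b := by exact_mod_cast h3
    rw [pow_two] at h5
    exact hp.one_lt.ne' (Nat.isUnit_iff.1 (g.sqb p h5))
  · exact (mo_facts g o hp hp2 h3).2 (Int.natCast_dvd_natCast.2 h)

lemma n_facts (o : Bool) {p : ℕ} (hp : p.Prime) (hp2 : p ≠ 2)
    (h : (p : ℤ) ∣ (b : ℤ) - mo o u w) :
    ¬ (p : ℤ) ^ 2 ∣ (b : ℤ) - mo o u w ∧ ¬ (p : ℤ) ∣ -mo o u w := by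
  have h1 := h
  rw [mo_compl g o] at h ⊢
  obtain ⟨h2, h3⟩ := mo_facts g (!o) hp hp2 h
  refine ⟨h2, fun h4 => h3 ?_⟩
  have h5 : (p : ℤ) ∣ mo o u w := Int.dvd_neg.1 h4
  have := dvd_add h1 h5
  simpa using this

lemma good_facts (o : Bool) {p : ℕ} (hp : p.Prime) (hp2 : p ≠ 2) (h : ¬ p ∣ u * b * w) :
    ¬ (p : ℤ) ∣ 2 * mo o u w * b * (mo o u w - b) := by
  have hP := Nat.prime_iff_prime_int.1 hp
  have hu : ¬ p ∣ u := fun h1 => h ((h1.mul_right b).mul_right w)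
  have hb : ¬ p ∣ b := fun h1 => h ((h1.mul_left u).mul_right w)
  have hw : ¬ p ∣ w := fun h1 => h (h1.mul_left _)
  have hm : ∀ o, ¬ (p : ℤ) ∣ mo o u w := by
    intro o h1
    cases o
    · exact hw (dvd_four_mul g hp hp2 (by simpa [mo] using h1))
    · exact hu (Int.natCast_dvd_natCast.1 (by simpa [mo] using h1))
  intro h1
  rcases hP.dvd_or_dvd h1 with h1 | h1
  · rcases hP.dvd_or_dvd h1 with h1 | h1
    · rcases hP.dvd_or_dvd h1 with h1 | h1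
      · have h2 : p ∣ 2 := by exact_mod_cast h1
        exact hp2 ((Nat.prime_dvd_prime_iff_eq hp Nat.prime_two).1 h2)
      · exact hm o h1
    · exact hb (Int.natCast_dvd_natCast.1 h1)
  · have h2 : (p : ℤ) ∣ (b : ℤ) - mo o u w := by
      rw [← neg_sub]
      exact (Int.dvd_neg).2 h1
    rw [mo_compl g o] at h2
    exact hm _ h2

end gd

theorem locp : S_LOCP := by
  intro o u b w g x y e1 e2 e3 hy h r1 r2 r3
  have hne : x * (x - mo o u w) * (x - b) ≠ 0 := by rw [← h]; exact pow_ne_zero _ hy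
  have n1 : x ≠ 0 := fun h => hne (by rw [h]; ring)
  have n2 : x - mo o u w ≠ 0 := fun h => hne (by rw [h]; ring)
  have n3 : x - b ≠ 0 := fun h => hne (by rw [h]; ring)
  refine ⟨?_, ?_, ?_, ?_⟩
  · intro p hp hp2 hn
    haveI : Fact p.Prime := ⟨hp⟩
    obtain ⟨g1, g2, g3⟩ := Pool.Agent.W22.RK.good p (mo o u w) b (good_facts g o hp hp2 hn) x y hy
      (by exact_mod_cast h)
    refine ⟨fun h1 => (rp_dvd r1 n1 p).1 h1 g1, fun h1 => (rp_dvd r2 n2 p).1 h1 g2,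
      fun h1 => (rp_dvd r3 n3 p).1 h1 ?_⟩
    exact_mod_cast g3
  · intro p hp hp2 hd
    obtain ⟨f1, f2⟩ := mo_facts g o hp hp2 hd
    exact core p hp hp2 (mo o u w) b hd f1 f2 x _ _ y hy rfl (by push_cast; ring) h e1 e2 e3 r1 r2 r3
  · intro p hp hp2 hd
    obtain ⟨f1, f2⟩ := b_facts g o hp hp2 hd
    exact core p hp hp2 b (mo o u w) (Int.natCast_dvd_natCast.2 hd) f1 f2 x _ _ y hy
      (by push_cast; ring) rfl (by rw [h]; ring) e1 e3 e2 r1 r3 r2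
  · intro p hp hp2 hd
    obtain ⟨f1, f2⟩ := n_facts g o hp hp2 hd
    have h4 := core p hp hp2 ((b : ℤ) - mo o u w) (-mo o u w) hd f1 f2 (x - mo o u w) (x - b) x y hy
      (by push_cast; ring) (by push_cast; ring) (by rw [h]; ring) e2 e3 e1 r2 r3 r1
    rw [neg_neg] at h4
    exact h4

end Pool.Agent.L0h47.RZ
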